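import Pool.Agent.H548.Z987.Two

/-!
# The Green function in dimension two away from the band centre (conclusion)
-/

set_option autoImplicit false
set_option linter.unusedSectionVars false

open scoped BigOperators InnerProductSpace Topology
open Filter MeasureTheory

namespace Pool.Agent.H548.Z987

open Pool.Agent.Y662.TR (LL Cf Mw dv hu)
open Pool.Agent.TH369.AN (Rz rz_eq rz_uniq rz_norm)
open Pool.Agent.H987.Z

/-! ### The majorant -/

theorem abs_int (a b : ℝ) : IntervalIntegrable (fun s : ℝ => |s| ^ (-(3 / 4) : ℝ)) volume a b := by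
  refine intervalIntegrable_of_even (fun x => by rw [abs_neg]) (fun x hx => ?_)
    (by finiteness) (by finiteness)
  refine (intervalIntegral.intervalIntegrable_rpow' (r := -(3 / 4)) (by norm_num)).congr ?_
  intro s hs
  rw [Set.uIoc_of_le hx.le] at hs
  beta_reduce
  rw [abs_of_pos hs.1]

/-- the integral of the majorant -/
noncomputable def K0 : ℝ := ∫ s in (-Real.pi)..Real.pi, |s| ^ (-(3 / 4) : ℝ)

theorem maj_intble (t : ℝ) (a b : ℝ) :
    IntervalIntegrable (fun θ : ℝ => |θ - t| ^ (-(3 / 4) : ℝ)) volume a b := by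
  have h := (abs_int (a - t) (b - t)).comp_sub_right t
  simpa using h

theorem maj_int {t : ℝ} (h0 : 0 ≤ t) (h1 : t ≤ Real.pi) :
    ∫ θ in (0 : ℝ)..Real.pi, |θ - t| ^ (-(3 / 4) : ℝ) ≤ K0 := by
  have h2 := intervalIntegral.integral_comp_sub_right (a := 0) (b := Real.pi)
    (fun s : ℝ => |s| ^ (-(3 / 4) : ℝ)) t
  rw [h2]
  unfold K0
  refine intervalIntegral.integral_mono_interval (by linarith) (by linarith) (by linarith) ?_
    (abs_int _ _)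
  exact Eventually.of_forall fun s => Real.rpow_nonneg (abs_nonneg _) _

theorem K0_nonneg : 0 ≤ K0 := by
  unfold K0
  exact intervalIntegral.integral_nonneg hpi.le fun s _ => Real.rpow_nonneg (abs_nonneg _) _

/-! ### The bounds of the Green function in dimension one -/

/-- the constant -/
noncomputable def cK (κ : ℝ) : ℝ := (κ ^ 2 / Real.pi) ^ (-(3 / 4) : ℝ)

theorem cK_nonneg {κ : ℝ} : 0 ≤ cK κ :=
  Real.rpow_nonneg (div_nonneg (sq_nonneg _) Real.pi_pos.le) _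

theorem g1_maj (hc : S_conv) {κ : ℝ} (hκ : 0 < κ) {z : ℂ} (h1 : κ ≤ z.re)
    (h2 : z.re ≤ 4 - κ) (hz : 0 < z.im) {θ : ℝ} (h3 : 0 ≤ θ) (h4 : θ ≤ Real.pi)
    (h5 : θ ≠ t0 z.re) :
    ‖gZ 1 (wz z θ)‖ ^ (3 / 2 : ℝ) ≤ cK κ * |θ - t0 z.re| ^ (-(3 / 4) : ℝ) := by
  have hp := Real.pi_pos
  have e1 := g1_sq hc (wz z θ) (by rw [wz_im]; exact hz.ne')
  have e2 : ‖gZ 1 (wz z θ)‖ ^ 2 * (‖wz z θ‖ * ‖wz z θ - 4‖) = 1 := by
    rw [← norm_mul, ← norm_pow, ← norm_mul, e1, norm_one]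
  have e3 := psi_low hκ h1 h2 h3 h4
  have e4 : |z.re - 2 + 2 * Real.cos θ| ≤ ‖wz z θ‖ := by
    rw [← wz_re]
    exact Complex.abs_re_le_norm _
  have e5 : κ ≤ ‖wz z θ - 4‖ := by
    refine le_trans ?_ (Complex.abs_re_le_norm _)
    rw [Complex.sub_re, wz_re]
    have h6 := Real.cos_le_one θ
    have h7 : ((4 : ℂ)).re = 4 := by simp
    rw [h7]
    refine le_trans ?_ (neg_le_abs _)
    linarith
  have n1 := norm_nonneg (gZ 1 (wz z θ))
  have n2 : 0 < |θ - t0 z.re| := abs_pos.2 (sub_ne_zero.2 h5)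
  obtain ⟨y, hy⟩ : ∃ y, y = κ ^ 2 / Real.pi * |θ - t0 z.re| := ⟨_, rfl⟩
  have hy0 : 0 < y := by rw [hy]; positivity
  have e6 : y ≤ ‖wz z θ‖ * ‖wz z θ - 4‖ := by
    calc y = (κ / Real.pi * |θ - t0 z.re|) * κ := by rw [hy]; ring
      _ ≤ ‖wz z θ‖ * ‖wz z θ - 4‖ := by
        have := e3.trans e4
        gcongr
  have e7 : ‖gZ 1 (wz z θ)‖ ^ 2 ≤ y⁻¹ := by
    rw [← one_div, le_div_iff₀ hy0, ← e2]
    gcongr
  have e8 : ‖gZ 1 (wz z θ)‖ ^ (3 / 2 : ℝ) = (‖gZ 1 (wz z θ)‖ ^ 2) ^ (3 / 4 : ℝ) := by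
    rw [← Real.rpow_natCast, ← Real.rpow_mul n1]
    norm_num
  have e9 : cK κ * |θ - t0 z.re| ^ (-(3 / 4) : ℝ) = (y⁻¹) ^ (3 / 4 : ℝ) := by
    unfold cK
    rw [← Real.mul_rpow (by positivity) (by positivity), ← hy, Real.rpow_neg hy0.le,
      Real.inv_rpow hy0.le]
  rw [e8, e9]
  gcongr

theorem im_low (hc : S_conv) (hg : S_green) {κ : ℝ} (hκ : 0 < κ) {w : ℂ} (h1 : κ / 2 ≤ w.re)
    (h2 : w.re ≤ 4 - κ) (h3 : 0 < w.im) (h4 : w.im ≤ 2) : κ / 30 ≤ (gZ 1 w).im := by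
  have e1 := g1_sq hc w h3.ne'
  have e2 := g1_im hc hg w h3
  obtain ⟨p, hp⟩ : ∃ p, p = (gZ 1 w).re := ⟨_, rfl⟩
  obtain ⟨q, hq⟩ : ∃ q, q = (gZ 1 w).im := ⟨_, rfl⟩
  obtain ⟨x, hx⟩ : ∃ x, x = w.re := ⟨_, rfl⟩
  obtain ⟨y, hy⟩ : ∃ y, y = w.im := ⟨_, rfl⟩
  have f1 : gZ 1 w = ⟨p, q⟩ := Complex.ext hp.symm hq.symm
  have f2 : w = ⟨x, y⟩ := Complex.ext hx.symm hy.symm
  have f3 : w * (w - 4) = ⟨x ^ 2 - y ^ 2 - 4 * x, 2 * x * y - 4 * y⟩ := by
    rw [f2]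
    apply Complex.ext
    · simp
      ring
    · simp
      ring
  rw [f1, f3] at e1
  obtain ⟨g1, g2⟩ := re_im_of e1
  rw [← hq] at e2 ⊢
  rw [← hx] at h1 h2
  rw [← hy] at h3 h4
  obtain ⟨P, hP⟩ : ∃ P, P = p ^ 2 - q ^ 2 := ⟨_, rfl⟩
  obtain ⟨Q, hQ⟩ : ∃ Q, Q = 2 * p * q := ⟨_, rfl⟩
  rw [← hP, ← hQ] at g1 g2
  obtain ⟨X, hX⟩ : ∃ X, X = x ^ 2 - y ^ 2 - 4 * x := ⟨_, rfl⟩
  obtain ⟨Y, hY⟩ : ∃ Y, Y = 2 * x * y - 4 * y := ⟨_, rfl⟩
  rw [← hX, ← hY] at g1 g2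
  have k1 : (P ^ 2 + Q ^ 2) * X = P := by linear_combination P * g1 + Q * g2
  have k2 : (P ^ 2 + Q ^ 2) * (X ^ 2 + Y ^ 2) = 1 := by
    have : (P ^ 2 + Q ^ 2) * (X ^ 2 + Y ^ 2) = (P * X - Q * Y) ^ 2 + (P * Y + Q * X) ^ 2 := by ring
    rw [this, g1, g2]
    ring
  have k3 : X ^ 2 + Y ^ 2 ≤ 400 := by
    have k4 : X ^ 2 + Y ^ 2 = (x ^ 2 + y ^ 2) * ((4 - x) ^ 2 + y ^ 2) := by rw [hX, hY]; ring
    have k5 : x ^ 2 + y ^ 2 ≤ 20 := by nlinarith
    have k6 : (4 - x) ^ 2 + y ^ 2 ≤ 20 := by nlinarith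
    rw [k4]
    calc (x ^ 2 + y ^ 2) * ((4 - x) ^ 2 + y ^ 2) ≤ 20 * 20 := by gcongr
      _ = 400 := by norm_num
  have k4 : 0 ≤ P ^ 2 + Q ^ 2 := by positivity
  have k5 : 1 ≤ (P ^ 2 + Q ^ 2) * 400 := by
    rw [← k2]
    gcongr
  have k6 : κ ^ 2 / 2 ≤ -X := by
    rw [hX]
    nlinarith
  have k7 : κ ^ 2 / 800 ≤ -P := by
    rw [← k1]
    nlinarith
  have k8 : κ ^ 2 / 800 ≤ q ^ 2 := by
    rw [hP] at k7
    nlinarith
  have k9 : (κ / 30) ^ 2 ≤ q ^ 2 := by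
    nlinarith
  exact (pow_le_pow_iff_left₀ (by positivity) e2.le two_ne_zero).1 k9

/-! ### Dimension two -/

theorem g1_cont (hc : S_conv) (hg : S_green) (z : ℂ) (hz : 0 < z.im) :
    Continuous fun k => gZ 1 (wz z k) := u1_cont hc hg z hz 0

theorem wz_neg (z : ℂ) (k : ℝ) : wz z (-k) = wz z k := by
  unfold wz
  rw [Real.cos_neg]

/-- the formula for the Green function in dimension two -/
theorem gZ2_half (hc : S_conv) (hg : S_green) (z : ℂ) (hz : 0 < z.im) :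
    gZ 2 z = (1 / Real.pi : ℝ) * ∫ k in (0 : ℝ)..Real.pi, gZ 1 (wz z k) := by
  rw [gZ2_eq hc hg z hz]
  have hi : ∀ a b : ℝ, IntervalIntegrable (fun k => gZ 1 (wz z k)) volume a b := fun a b =>
    (g1_cont hc hg z hz).intervalIntegrable _ _
  rw [← intervalIntegral.integral_add_adjacent_intervals (hi (-Real.pi) 0) (hi 0 Real.pi)]
  have h1 : ∫ k in (-Real.pi)..0, gZ 1 (wz z k) = ∫ k in (0 : ℝ)..Real.pi, gZ 1 (wz z k) := by
    have h2 := intervalIntegral.integral_comp_neg (a := 0) (b := Real.pi)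
      (fun k => gZ 1 (wz z k))
    rw [neg_zero] at h2
    rw [← h2]
    refine intervalIntegral.integral_congr fun k _ => ?_
    rw [wz_neg]
  rw [h1]
  have hp : (Real.pi : ℂ) ≠ 0 := by exact_mod_cast Real.pi_ne_zero
  push_cast
  field_simp
  ring

theorem ae_ne (t : ℝ) : ∀ᵐ θ : ℝ ∂volume, θ ≠ t := by
  rw [ae_iff]
  simp

theorem up_dom (hc : S_conv) (hg : S_green) {κ : ℝ} (hκ : 0 < κ) {z : ℂ} (h1 : κ ≤ z.re)
    (h2 : z.re ≤ 4 - κ) (hz : 0 < z.im) :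
    ‖gZ 2 z‖ ≤ 1 / Real.pi * (Real.pi + cK κ * K0) := by
  have hp := Real.pi_pos
  rw [gZ2_half hc hg z hz, norm_mul, Complex.norm_real, Real.norm_of_nonneg (by positivity)]
  have h3 : ‖∫ k in (0 : ℝ)..Real.pi, gZ 1 (wz z k)‖ ≤
      ∫ θ in (0 : ℝ)..Real.pi, (1 + cK κ * |θ - t0 z.re| ^ (-(3 / 4) : ℝ)) := by
    refine intervalIntegral.norm_integral_le_of_norm_le hp.le ?_
      (intervalIntegrable_const.add ((maj_intble _ _ _).const_mul _))
    filter_upwards [ae_ne (t0 z.re)] with θ hθ hm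
    have h4 := g1_maj hc hκ h1 h2 hz hm.1.le hm.2 hθ
    refine le_trans ?_ (add_le_add le_rfl h4)
    have n1 := norm_nonneg (gZ 1 (wz z θ))
    rcases le_total ‖gZ 1 (wz z θ)‖ 1 with h5 | h5
    · have := Real.rpow_nonneg n1 (3 / 2 : ℝ)
      linarith
    · have h6 : ‖gZ 1 (wz z θ)‖ ^ (1 : ℝ) ≤ ‖gZ 1 (wz z θ)‖ ^ (3 / 2 : ℝ) :=
        Real.rpow_le_rpow_of_exponent_le h5 (by norm_num)
      rw [Real.rpow_one] at h6
      linarith
  rw [intervalIntegral.integral_add intervalIntegrable_const ((maj_intble _ _ _).const_mul _),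
    intervalIntegral.integral_const, intervalIntegral.integral_const_mul, sub_zero, smul_eq_mul,
    mul_one] at h3
  have h4 := maj_int (t0_mem z.re).1 (t0_mem z.re).2
  have h5 := cK_nonneg (κ := κ)
  have h6 : cK κ * ∫ θ in (0 : ℝ)..Real.pi, |θ - t0 z.re| ^ (-(3 / 4) : ℝ) ≤ cK κ * K0 := by
    gcongr
  gcongr
  linarith

theorem wz_bd {κ : ℝ} (hκ : 0 < κ) {z : ℂ} (h1 : κ ≤ z.re)
    (h2 : z.re ≤ 4 - κ) (hz : 0 < z.im) (hz2 : z.im ≤ 2) (θ : ℝ) : ‖wz z θ‖ ≤ 6 := by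
  refine (Complex.norm_le_abs_re_add_abs_im _).trans ?_
  rw [wz_re, wz_im, abs_of_pos hz]
  have h3 := Real.cos_le_one θ
  have h4 := Real.neg_one_le_cos θ
  have h5 : |z.re - 2 + 2 * Real.cos θ| ≤ 4 := by
    rw [abs_le]
    constructor <;> linarith
  linarith

theorem mo_dom (hc : S_conv) (hg : S_green) {κ : ℝ} (hκ : 0 < κ) {z z' : ℂ} (h1 : κ ≤ z.re)
    (h2 : z.re ≤ 4 - κ) (hz : 0 < z.im) (hz2 : z.im ≤ 2) (h1' : κ ≤ z'.re)
    (h2' : z'.re ≤ 4 - κ) (hz' : 0 < z'.im) (hz2' : z'.im ≤ 2) :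
    ‖gZ 2 z - gZ 2 z'‖ ≤ 1 / Real.pi * ((320 * ‖z - z'‖) ^ (1 / 4 : ℝ) * (cK κ * (K0 + K0))) := by
  have hp := Real.pi_pos
  rw [gZ2_half hc hg z hz, gZ2_half hc hg z' hz', ← mul_sub,
    ← intervalIntegral.integral_sub ((g1_cont hc hg z hz).intervalIntegrable _ _)
      ((g1_cont hc hg z' hz').intervalIntegrable _ _),
    norm_mul, Complex.norm_real, Real.norm_of_nonneg (by positivity)]
  obtain ⟨D, hD⟩ : ∃ D, D = (320 * ‖z - z'‖) ^ (1 / 4 : ℝ) := ⟨_, rfl⟩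
  have hD0 : 0 ≤ D := by rw [hD]; positivity
  have hi := fun t : ℝ => maj_intble t 0 Real.pi
  have h3 : ‖∫ k in (0 : ℝ)..Real.pi, (gZ 1 (wz z k) - gZ 1 (wz z' k))‖ ≤
      ∫ θ in (0 : ℝ)..Real.pi, D * (cK κ * (|θ - t0 z.re| ^ (-(3 / 4) : ℝ) +
        |θ - t0 z'.re| ^ (-(3 / 4) : ℝ))) := by
    refine intervalIntegral.norm_integral_le_of_norm_le hp.le ?_
      ((((hi _).add (hi _)).const_mul _).const_mul _)
    filter_upwards [ae_ne (t0 z.re), ae_ne (t0 z'.re)] with θ hθ hθ' hm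
    have h4 := g1_maj hc hκ h1 h2 hz hm.1.le hm.2 hθ
    have h4' := g1_maj hc hκ h1' h2' hz' hm.1.le hm.2 hθ'
    have hw : 0 < (wz z θ).im := by rw [wz_im]; exact hz
    have hw' : 0 < (wz z' θ).im := by rw [wz_im]; exact hz'
    have hc1 := Real.cos_le_one θ
    have hr : (wz z θ).re < 4 := by rw [wz_re]; linarith
    have hr' : (wz z' θ).re < 4 := by rw [wz_re]; linarith
    have h5 := sec_diff' (g1_sq hc _ hw.ne') (g1_sq hc _ hw'.ne') (g1_im hc hg _ hw)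
      (sector hc hg _ hw hr) (g1_im hc hg _ hw') (sector hc hg _ hw' hr')
    refine h5.trans ?_
    have h6 : ‖wz z' θ * (wz z' θ - 4) - wz z θ * (wz z θ - 4)‖ ≤ 16 * ‖z - z'‖ := by
      have h7 : wz z' θ * (wz z' θ - 4) - wz z θ * (wz z θ - 4) =
          -(wz z' θ + wz z θ - 4) * (z - z') := by
        unfold wz
        ring
      rw [h7, norm_mul, norm_neg]
      have h8 := wz_bd hκ h1 h2 hz hz2 θ
      have h9 := wz_bd hκ h1' h2' hz' hz2' θ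
      have h10 : ‖wz z' θ + wz z θ - 4‖ ≤ 16 := by
        have h11 := norm_sub_le (wz z' θ + wz z θ) 4
        have h12 := norm_add_le (wz z' θ) (wz z θ)
        have h13 : ‖(4 : ℂ)‖ = 4 := by simp
        linarith
      gcongr
    have h7 : (20 * ‖wz z' θ * (wz z' θ - 4) - wz z θ * (wz z θ - 4)‖) ^ (1 / 4 : ℝ) ≤ D := by
      rw [hD]
      apply Real.rpow_le_rpow (by positivity) _ (by norm_num)
      linarith
    have h8 : ‖gZ 1 (wz z θ)‖ ^ (3 / 2 : ℝ) + ‖gZ 1 (wz z' θ)‖ ^ (3 / 2 : ℝ) ≤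
        cK κ * (|θ - t0 z.re| ^ (-(3 / 4) : ℝ) + |θ - t0 z'.re| ^ (-(3 / 4) : ℝ)) := by
      rw [mul_add]
      linarith
    have n1 : 0 ≤ ‖gZ 1 (wz z θ)‖ ^ (3 / 2 : ℝ) + ‖gZ 1 (wz z' θ)‖ ^ (3 / 2 : ℝ) := by positivity
    gcongr
  rw [intervalIntegral.integral_const_mul, intervalIntegral.integral_const_mul,
    intervalIntegral.integral_add (hi _) (hi _)] at h3
  have h4 := maj_int (t0_mem z.re).1 (t0_mem z.re).2
  have h4' := maj_int (t0_mem z'.re).1 (t0_mem z'.re).2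
  have h5 := cK_nonneg (κ := κ)
  have h6 : D * (cK κ * ((∫ θ in (0 : ℝ)..Real.pi, |θ - t0 z.re| ^ (-(3 / 4) : ℝ)) +
      ∫ θ in (0 : ℝ)..Real.pi, |θ - t0 z'.re| ^ (-(3 / 4) : ℝ))) ≤
      D * (cK κ * (K0 + K0)) := by
    gcongr
  rw [← hD]
  gcongr
  exact h3.trans h6

theorem lo_dom (hc : S_conv) (hg : S_green) {κ : ℝ} (hκ : 0 < κ) (hκ1 : κ ≤ 1) {z : ℂ}
    (h1 : κ ≤ z.re) (h2 : z.re ≤ 4 - κ) (hz : 0 < z.im) (hz2 : z.im ≤ 2) :
    1 / Real.pi * (κ / 2 * (κ / 30)) ≤ (gZ 2 z).im := by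
  have hp := Real.pi_pos
  have hp3 := Real.pi_gt_three
  have hi : ∀ a b : ℝ, IntervalIntegrable (fun k => gZ 1 (wz z k)) volume a b := fun a b =>
    (g1_cont hc hg z hz).intervalIntegrable _ _
  rw [gZ2_half hc hg z hz, Complex.im_ofReal_mul]
  have h3 : (∫ k in (0 : ℝ)..Real.pi, gZ 1 (wz z k)).im =
      ∫ k in (0 : ℝ)..Real.pi, (gZ 1 (wz z k)).im :=
    (Complex.imCLM.intervalIntegral_comp_comm (hi 0 Real.pi)).symm
  rw [h3]
  have hci : Continuous fun k => (gZ 1 (wz z k)).im :=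
    Complex.continuous_im.comp (g1_cont hc hg z hz)
  have hi' : ∀ a b : ℝ, IntervalIntegrable (fun k => (gZ 1 (wz z k)).im) volume a b := fun a b =>
    hci.intervalIntegrable _ _
  rw [← intervalIntegral.integral_add_adjacent_intervals (hi' 0 (κ / 2)) (hi' (κ / 2) Real.pi)]
  have h4 : 0 ≤ ∫ k in (κ / 2)..Real.pi, (gZ 1 (wz z k)).im := by
    refine intervalIntegral.integral_nonneg (by linarith) fun k _ => ?_
    exact (g1_im hc hg _ (by rw [wz_im]; exact hz)).le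
  have h5 : ∫ k in (0 : ℝ)..(κ / 2), κ / 30 ≤ ∫ k in (0 : ℝ)..(κ / 2), (gZ 1 (wz z k)).im := by
    refine intervalIntegral.integral_mono_on (by linarith) intervalIntegrable_const (hi' _ _)
      fun k hk => ?_
    have h6 := Real.one_sub_sq_div_two_le_cos (x := k)
    have h7 := Real.cos_le_one k
    have h8 : k ^ 2 ≤ κ / 2 := by nlinarith [hk.1, hk.2]
    refine im_low hc hg hκ ?_ ?_ ?_ ?_
    · rw [wz_re]; linarith
    · rw [wz_re]; linarith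
    · rw [wz_im]; exact hz
    · rw [wz_im]; exact hz2
  rw [intervalIntegral.integral_const, sub_zero, smul_eq_mul] at h5
  gcongr
  linarith

/-- the first half of the band -/
theorem fr_first (hc : S_conv) (hg : S_green) {κ : ℝ} (hκ : 0 < κ) (hκ1 : κ ≤ 1) :
    Fr (gZ 2) κ (4 - κ) (1 / Real.pi * (κ / 2 * (κ / 30)))
      (1 / Real.pi * (Real.pi + cK κ * K0)) where
  c0 := by
    have := Real.pi_pos
    positivity
  lo z h1 h2 h3 h4 := lo_dom hc hg hκ hκ1 h1 h2 h3 h4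
  up z h1 h2 h3 _ := up_dom hc hg hκ h1 h2 h3
  mo := by
    intro δ hδ
    have hp := Real.pi_pos
    have hK := K0_nonneg
    have hcK := cK_nonneg (κ := κ)
    obtain ⟨M, hM⟩ : ∃ M, M = 1 / Real.pi * (cK κ * (K0 + K0)) + 1 := ⟨_, rfl⟩
    have hM0 : 0 < M := by rw [hM]; positivity
    have hM1 : 1 / Real.pi * (cK κ * (K0 + K0)) ≤ M := by rw [hM]; linarith
    refine ⟨(δ / M) ^ 4 / 320, by positivity, fun z z' h1 h2 h3 h4 h1' h2' h3' h4' h5 => ?_⟩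
    refine (mo_dom hc hg hκ h1 h2 h3 h4 h1' h2' h3' h4').trans ?_
    have h6 : (320 * ‖z - z'‖) ^ (1 / 4 : ℝ) ≤ δ / M := by
      have h7 : 320 * ‖z - z'‖ ≤ (δ / M) ^ 4 := by linarith
      have h8 : ((δ / M) ^ 4) ^ (1 / 4 : ℝ) = δ / M := by
        rw [← Real.rpow_natCast, ← Real.rpow_mul (by positivity)]
        norm_num
      rw [← h8]
      gcongr
    calc 1 / Real.pi * ((320 * ‖z - z'‖) ^ (1 / 4 : ℝ) * (cK κ * (K0 + K0))) =
        (320 * ‖z - z'‖) ^ (1 / 4 : ℝ) * (1 / Real.pi * (cK κ * (K0 + K0))) := by ring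
      _ ≤ (δ / M) * M := by gcongr
      _ = δ := by field_simp

/-! ### The symmetry of the band -/

/-- reflection at the band centre, dimension one -/
theorem g1_symm (hc : S_conv) (hg : S_green) (w : ℂ) (hw : 0 < w.im) :
    gZ 1 (4 - (starRingEnd ℂ) w) = -(starRingEnd ℂ) (gZ 1 w) := by
  have hw' : 0 < (4 - (starRingEnd ℂ) w).im := by
    rw [Complex.sub_im, Complex.conj_im]
    simpa using hw
  have h1 := g1_sq hc w hw.ne'
  have h2 := g1_sq hc _ hw'.ne'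
  have i1 := g1_im hc hg w hw
  have i2 := g1_im hc hg _ hw'
  obtain ⟨a, ha⟩ : ∃ a, a = (starRingEnd ℂ) (gZ 1 w) := ⟨_, rfl⟩
  obtain ⟨b, hb⟩ : ∃ b, b = gZ 1 (4 - (starRingEnd ℂ) w) := ⟨_, rfl⟩
  rw [← ha, ← hb]
  rw [← hb] at h2 i2
  have h3 : a ^ 2 * ((starRingEnd ℂ) w * ((starRingEnd ℂ) w - 4)) = 1 := by
    have h4 := congrArg (starRingEnd ℂ) h1
    have h5 : (starRingEnd ℂ) (4 : ℂ) = 4 := Complex.conj_ofNat 4
    rw [map_mul, map_pow, map_mul, map_sub, h5, map_one, ← ha] at h4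
    exact h4
  have h6 : (b - a) * (b + a) = 0 := by
    have h7 : b ^ 2 * ((starRingEnd ℂ) w * ((starRingEnd ℂ) w - 4)) = 1 := by
      rw [← h2]; ring
    have h8 : ((starRingEnd ℂ) w * ((starRingEnd ℂ) w - 4)) ≠ 0 := by
      intro h
      rw [h, mul_zero] at h7
      exact zero_ne_one h7
    have h9 : (b - a) * (b + a) * ((starRingEnd ℂ) w * ((starRingEnd ℂ) w - 4)) = 0 := by
      linear_combination h7 - h3
    exact (mul_eq_zero.1 h9).resolve_right h8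
  rcases mul_eq_zero.1 h6 with h | h
  · exfalso
    have h7 : b = a := sub_eq_zero.1 h
    rw [h7, ha, Complex.conj_im] at i2
    linarith
  · exact eq_neg_of_add_eq_zero_left h

theorem wz_symm (z : ℂ) (k : ℝ) : wz (8 - (starRingEnd ℂ) z) k =
    4 - (starRingEnd ℂ) (wz z (Real.pi - k)) := by
  unfold wz
  rw [Real.cos_pi_sub, map_add, map_sub, map_mul, Complex.conj_ofReal]
  have h5 : (starRingEnd ℂ) (2 : ℂ) = 2 := Complex.conj_ofNat 2
  rw [h5]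
  push_cast
  ring

/-- reflection at the band centre, dimension two -/
theorem g2_symm (hc : S_conv) (hg : S_green) (z : ℂ) (hz : 0 < z.im) :
    gZ 2 (8 - (starRingEnd ℂ) z) = -(starRingEnd ℂ) (gZ 2 z) := by
  have hz' : 0 < (8 - (starRingEnd ℂ) z).im := by
    rw [Complex.sub_im, Complex.conj_im]
    simpa using hz
  rw [gZ2_half hc hg _ hz', gZ2_half hc hg z hz, map_mul, Complex.conj_ofReal]
  have h1 : ∫ k in (0 : ℝ)..Real.pi, gZ 1 (wz (8 - (starRingEnd ℂ) z) k) =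
      -(starRingEnd ℂ) (∫ k in (0 : ℝ)..Real.pi, gZ 1 (wz z k)) := by
    have h2 : ∫ k in (0 : ℝ)..Real.pi, gZ 1 (wz (8 - (starRingEnd ℂ) z) k) =
        ∫ k in (0 : ℝ)..Real.pi, -(starRingEnd ℂ) (gZ 1 (wz z (Real.pi - k))) := by
      refine intervalIntegral.integral_congr fun k _ => ?_
      rw [wz_symm, g1_symm hc hg _ (by rw [wz_im]; exact hz)]
    rw [h2, intervalIntegral.integral_neg]
    congr 1
    have h3 := intervalIntegral.integral_comp_sub_left (a := 0) (b := Real.pi)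
      (fun k => (starRingEnd ℂ) (gZ 1 (wz z k))) Real.pi
    rw [h3, sub_self, sub_zero]
    have h5 : IntervalIntegrable (fun k => gZ 1 (wz z k)) volume 0 Real.pi :=
      (g1_cont hc hg z hz).intervalIntegrable _ _
    exact (Complex.conjCLE.toContinuousLinearMap).intervalIntegral_comp_comm h5
  rw [h1]
  ring

theorem fr_second (hc : S_conv) (hg : S_green) {κ c C : ℝ}
    (h : Fr (gZ 2) κ (4 - κ) c C) : Fr (gZ 2) (4 + κ) (8 - κ) c C := by
  have hre : ∀ z : ℂ, (8 - (starRingEnd ℂ) z).re = 8 - z.re := by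
    intro z
    rw [Complex.sub_re, Complex.conj_re]
    simp
  have him : ∀ z : ℂ, (8 - (starRingEnd ℂ) z).im = z.im := by
    intro z
    rw [Complex.sub_im, Complex.conj_im]
    simp
  have key : ∀ z : ℂ, 0 < z.im → gZ 2 z = -(starRingEnd ℂ) (gZ 2 (8 - (starRingEnd ℂ) z)) := by
    intro z hz
    rw [← g2_symm hc hg _ (by rw [him]; exact hz)]
    congr 1
    have h5 : (starRingEnd ℂ) (8 : ℂ) = 8 := Complex.conj_ofNat 8
    rw [map_sub, Complex.conj_conj, h5]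
    ring
  refine ⟨h.c0, fun z h1 h2 h3 h4 => ?_, fun z h1 h2 h3 h4 => ?_, fun δ hδ => ?_⟩
  · rw [key z h3, Complex.neg_im, Complex.conj_im, neg_neg]
    exact h.lo _ (by rw [hre]; linarith) (by rw [hre]; linarith) (by rw [him]; exact h3)
      (by rw [him]; exact h4)
  · rw [key z h3, norm_neg, Complex.norm_conj]
    exact h.up _ (by rw [hre]; linarith) (by rw [hre]; linarith) (by rw [him]; exact h3)
      (by rw [him]; exact h4)
  · obtain ⟨r, hr, hr2⟩ := h.mo δ hδ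
    refine ⟨r, hr, fun z z' h1 h2 h3 h4 h1' h2' h3' h4' h5 => ?_⟩
    rw [key z h3, key z' h3', ← neg_sub', norm_neg, ← map_sub, Complex.norm_conj]
    refine hr2 _ _ (by rw [hre]; linarith) (by rw [hre]; linarith) (by rw [him]; exact h3)
      (by rw [him]; exact h4) (by rw [hre]; linarith) (by rw [hre]; linarith)
      (by rw [him]; exact h3') (by rw [him]; exact h4') ?_
    have h6 : (8 - (starRingEnd ℂ) z) - (8 - (starRingEnd ℂ) z') =
        -(starRingEnd ℂ) (z - z') := by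
      rw [map_sub]
      ring
    rw [h6, norm_neg, Complex.norm_conj]
    exact h5

/-- **E2.** -/
theorem free2 (hc : S_conv) (hg : S_green) : Pool.Agent.H987.Z.S_free2 := by
  intro κ hκ hκ1
  have h := fr_first hc hg hκ hκ1
  exact ⟨⟨_, _, h⟩, ⟨_, _, fr_second hc hg h⟩⟩

/-- **E1.** -/
theorem g1_up (hc : S_conv) {κ : ℝ} (hκ : 0 < κ) {w : ℂ} (h1 : κ ≤ w.re)
    (h2 : w.re ≤ 4 - κ) (h3 : 0 < w.im) : ‖gZ 1 w‖ ≤ 1 / κ := by
  have e1 := g1_sq hc w h3.ne'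
  have e2 : ‖gZ 1 w‖ ^ 2 * (‖w‖ * ‖w - 4‖) = 1 := by
    rw [← norm_mul, ← norm_pow, ← norm_mul, e1, norm_one]
  have e3 : κ ≤ ‖w‖ := h1.trans (Complex.re_le_norm w)
  have e5 : κ ≤ ‖w - 4‖ := by
    refine le_trans ?_ (Complex.abs_re_le_norm _)
    rw [Complex.sub_re]
    have h7 : ((4 : ℂ)).re = 4 := by simp
    rw [h7]
    refine le_trans ?_ (neg_le_abs _)
    linarith
  have n1 := norm_nonneg (gZ 1 w)
  have e6 : ‖gZ 1 w‖ ^ 2 * (κ * κ) ≤ 1 := by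
    rw [← e2]
    gcongr
  rw [le_div_iff₀ hκ]
  have e7 : (‖gZ 1 w‖ * κ) ^ 2 ≤ 1 ^ 2 := by nlinarith
  exact (pow_le_pow_iff_left₀ (by positivity) one_pos.le two_ne_zero).1 e7

theorem free1 (hc : S_conv) (hg : S_green) : Pool.Agent.H987.Z.S_free1 := by
  intro κ hκ hκ1
  refine ⟨κ / 30, 1 / κ, by positivity, fun w h1 h2 h3 h4 => ?_, fun w h1 h2 h3 h4 => ?_,
    fun δ hδ => ?_⟩
  · exact im_low hc hg hκ (by linarith) h2 h3 h4
  · exact g1_up hc hκ h1 h2 h3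
  · refine ⟨δ ^ 4 * κ ^ 6 / 320, by positivity, fun w w' h1 h2 h3 h4 h1' h2' h3' h4' h5 => ?_⟩
    have h6 := sec_diff (g1_sq hc _ h3.ne') (g1_sq hc _ h3'.ne') (g1_im hc hg _ h3)
      (sector hc hg _ h3 (by linarith)) (g1_im hc hg _ h3') (sector hc hg _ h3' (by linarith))
    have n1 := norm_nonneg (gZ 1 w)
    have n2 := norm_nonneg (gZ 1 w')
    have h7 : max ‖gZ 1 w‖ ‖gZ 1 w'‖ ≤ 1 / κ :=
      max_le (g1_up hc hκ h1 h2 h3) (g1_up hc hκ h1' h2' h3')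
    have hb : ∀ v : ℂ, κ ≤ v.re → v.re ≤ 4 - κ → 0 < v.im → v.im ≤ 2 → ‖v‖ ≤ 6 := by
      intro v a1 a2 a3 a4
      refine (Complex.norm_le_abs_re_add_abs_im _).trans ?_
      rw [abs_of_pos a3, abs_of_pos (by linarith)]
      linarith
    have h8 : ‖w' * (w' - 4) - w * (w - 4)‖ ≤ 16 * ‖w - w'‖ := by
      have h9 : w' * (w' - 4) - w * (w - 4) = -(w' + w - 4) * (w - w') := by ring
      rw [h9, norm_mul, norm_neg]
      have h10 : ‖w' + w - 4‖ ≤ 16 := by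
        have h11 := norm_sub_le (w' + w) 4
        have h12 := norm_add_le w' w
        have h13 : ‖(4 : ℂ)‖ = 4 := by simp
        have h14 := hb w h1 h2 h3 h4
        have h15 := hb w' h1' h2' h3' h4'
        linarith
      gcongr
    have h9 : ‖gZ 1 w - gZ 1 w'‖ ^ 4 ≤ δ ^ 4 := by
      refine h6.trans ?_
      have m0 : 0 ≤ max ‖gZ 1 w‖ ‖gZ 1 w'‖ := n1.trans (le_max_left _ _)
      calc 20 * ‖w' * (w' - 4) - w * (w - 4)‖ * max ‖gZ 1 w‖ ‖gZ 1 w'‖ ^ 6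
          ≤ 20 * (16 * (δ ^ 4 * κ ^ 6 / 320)) * (1 / κ) ^ 6 := by
            gcongr
            exact h8.trans (by gcongr)
        _ = δ ^ 4 := by
          field_simp
          norm_num
    exact (pow_le_pow_iff_left₀ (norm_nonneg _) hδ.le (by norm_num)).1 h9

end Pool.Agent.H548.Z987
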