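import Pool.Agent.H987.Z.StD

/-!
# The lattice operators in dimensions one and two, and the partial Fourier transform
(task E2 of the project Z of helper987)
-/

set_option autoImplicit false
set_option linter.unusedSectionVars false

open scoped BigOperators InnerProductSpace Topology
open Filter MeasureTheory

namespace Pool.Agent.H548.Z987

open Pool.Agent.Y662.TR (LL Cf Mw dv hu ll_ext lmk lmk_apply sub_coord smul_coord add_coord dv_self
  dv_ne dv_apply ll_sum ll_summable norm_dv ll_coord)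
open Pool.Agent.TH369.AN (Rz rz_eq rz_uniq rz_norm)
open Pool.Agent.H987.Z

/-- the lattice, written multiplicatively -/
abbrev ZM (d : ℕ) : Type := Multiplicative (Fin d → ℤ)

/-- the basis vectors and their opposites -/
def ep (d : ℕ) (i : Fin d) : ZM d := Multiplicative.ofAdd (Pi.single i 1)
def em (d : ℕ) (i : Fin d) : ZM d := Multiplicative.ofAdd (Pi.single i (-1))

/-- the weights of `-Δ` -/
noncomputable def bb (d : ℕ) : ZM d → ℝ := b0 (MonoidHom.id (ZM d))

open Classical in
theorem bb_apply (d : ℕ) (x : ZM d) : bb d x = (2 * d) * (if x = 1 then 1 else 0) - ∑ i : Fin d,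
    ((if x = ep d i then 1 else 0) + (if x = em d i then 1 else 0)) := by
  unfold bb b0
  congr!

theorem ep_inv (d : ℕ) (i : Fin d) : (ep d i)⁻¹ = em d i := by
  show Multiplicative.ofAdd (-(Pi.single i 1 : Fin d → ℤ)) = _
  rw [← Pi.single_neg]
  rfl

theorem em_inv (d : ℕ) (i : Fin d) : (em d i)⁻¹ = ep d i := by
  rw [← ep_inv, inv_inv]

theorem bb_sy (d : ℕ) : Sy (bb d) where
  sm := by
    classical
    apply summable_of_ne_finset_zero (s := {1} ∪ (Finset.univ.image (ep d) ∪
      Finset.univ.image (em d)))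
    intro x hx
    simp only [Finset.mem_union, Finset.mem_singleton, Finset.mem_image, Finset.mem_univ,
      true_and, not_or, not_exists] at hx
    obtain ⟨h1, h2, h3⟩ := hx
    rw [bb_apply, if_neg h1, Finset.sum_eq_zero]
    · simp
    · intro i _
      rw [if_neg (fun h => h2 i h.symm), if_neg (fun h => h3 i h.symm), add_zero]
  sy := by
    classical
    intro s
    rw [bb_apply, bb_apply]
    congr 1
    · congr 1
      simp only [inv_eq_one]
    · refine Finset.sum_congr rfl fun i _ => ?_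
      rw [add_comm]
      congr 1
      · congr 1
        rw [inv_eq_iff_eq_inv, em_inv]
      · congr 1
        rw [inv_eq_iff_eq_inv, ep_inv]

/-- the operator `-Δ` -/
noncomputable def TL (d : ℕ) : LL (ZM d) →L[ℂ] LL (ZM d) := KT (bb d)

theorem ra_mul (d : ℕ) : RA (fun s : ZM d => Equiv.mulRight s) where
  one x := by simp
  mul s t x := by simp [mul_assoc]

theorem TL_rs (hc : S_conv) (d : ℕ) : Rs (TL d) :=
  (hc (ZM d) (ZM d) _ (ra_mul d) (bb d) (bb d) (bb_sy d) (bb_sy d)).2.2.1

theorem TL_apply (hc : S_conv) (d : ℕ) (u : LL (ZM d)) (x : ZM d) :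
    TL d u x = 2 * d * u x - ∑ i, (u (x * ep d i) + u (x * em d i)) := by
  classical
  have h := ((hc (ZM d) (ZM d) _ (ra_mul d) (bb d) (bb d) (bb_sy d) (bb_sy d)).1 u x).2
  refine h.trans ?_
  have h1 : ∀ a : ZM d, HasSum (fun s : ZM d => (((if s = a then 1 else 0 : ℝ) : ℝ) : ℂ) *
      u (x * s)) (u (x * a)) := by
    intro a
    have h2 := hasSum_single (f := fun s : ZM d => (((if s = a then 1 else 0 : ℝ) : ℝ) : ℂ) *
      u (x * s)) a (by
        intro b hb
        beta_reduce
        rw [if_neg hb]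
        simp)
    simpa using h2
  have h3 : HasSum (fun s : ZM d => ((bb d s : ℝ) : ℂ) * u (x * s))
      (2 * d * u (x * 1) - ∑ i, (u (x * ep d i) + u (x * em d i))) := by
    have h4 := ((h1 1).mul_left (2 * d : ℂ)).sub
      (hasSum_sum (s := Finset.univ) fun i _ => (h1 (ep d i)).add (h1 (em d i)))
    have h5 : (fun s : ZM d => ((bb d s : ℝ) : ℂ) * u (x * s)) = fun s : ZM d =>
        2 * d * ((((if s = 1 then 1 else 0 : ℝ) : ℝ) : ℂ) * u (x * s)) - ∑ i : Fin d,
        ((((if s = ep d i then 1 else 0 : ℝ) : ℝ) : ℂ) * u (x * s) +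
          (((if s = em d i then 1 else 0 : ℝ) : ℝ) : ℂ) * u (x * s)) := by
      funext s
      rw [bb_apply]
      push_cast
      rw [sub_mul, Finset.sum_mul]
      congr 1
      · ring
      · refine Finset.sum_congr rfl fun i _ => ?_
        ring
    rw [h5]
    exact h4
  rw [mul_one] at h3
  exact h3.tsum_eq

/-! ### Dimension one -/

/-- the resolvent applied to the unit vector -/
noncomputable def u1 (w : ℂ) : LL (ZM 1) := Rz (TL 1) w (dv 1)

/-- the points of the line -/
def n1 (n : ℤ) : ZM 1 := Multiplicative.ofAdd (fun _ => n)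

theorem n1_zero : n1 0 = 1 := rfl

theorem n1_inj : Function.Injective n1 := by
  intro a b h
  exact congrFun (Multiplicative.ofAdd.injective h) 0

theorem n1_ep (n : ℤ) : n1 n * ep 1 0 = n1 (n + 1) := by
  apply Multiplicative.toAdd.injective
  funext i
  show n + (Pi.single 0 1 : Fin 1 → ℤ) i = n + 1
  rw [Subsingleton.elim i 0, Pi.single_eq_same]

theorem n1_em (n : ℤ) : n1 n * em 1 0 = n1 (n - 1) := by
  apply Multiplicative.toAdd.injective
  funext i
  show n + (Pi.single 0 (-1) : Fin 1 → ℤ) i = n - 1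
  rw [Subsingleton.elim i 0, Pi.single_eq_same]
  ring

theorem gZ1_eq (w : ℂ) : gZ 1 w = u1 w (n1 0) := rfl

theorem eq1 (hc : S_conv) (w : ℂ) (hw : w.im ≠ 0) (n : ℤ) :
    2 * u1 w (n1 n) - (u1 w (n1 (n + 1)) + u1 w (n1 (n - 1))) - w * u1 w (n1 n) =
      if n = 0 then 1 else 0 := by
  have h1 := rz_eq (TL 1) (TL_rs hc 1).sa w hw (dv 1)
  have h2 := congrArg (fun v : LL (ZM 1) => v (n1 n)) h1
  have h3 : TL 1 (u1 w) (n1 n) - w * u1 w (n1 n) = (dv (1 : ZM 1) : LL (ZM 1)) (n1 n) := h2
  rw [TL_apply hc 1] at h3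
  simp only [Finset.univ_unique, Fin.default_eq_zero, Finset.sum_singleton, Nat.cast_one,
    mul_one] at h3
  rw [n1_ep, n1_em] at h3
  rw [h3]
  by_cases hn : n = 0
  · subst hn
    rw [if_pos rfl, n1_zero, dv_self]
  · rw [if_neg hn, dv_ne]
    intro h
    exact hn (n1_inj (h.trans n1_zero.symm))

theorem u1_norm (hc : S_conv) (w : ℂ) (hw : w.im ≠ 0) : ‖u1 w‖ ≤ 1 / |w.im| := by
  have h := rz_norm (TL 1) (TL_rs hc 1).sa w hw (dv 1)
  rwa [norm_dv] at h

theorem u1_part (hc : S_conv) (w : ℂ) (hw : w.im ≠ 0) (s : Finset ℤ) :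
    ∑ n ∈ s, ‖u1 w (n1 n)‖ ^ 2 ≤ (1 / |w.im|) ^ 2 := by
  have h1 := Pool.Agent.Y662.TR.comp_tsum n1 n1_inj (u1 w)
  have h2 := Pool.Agent.Y662.TR.comp_sum n1 n1_inj (u1 w)
  have h3 := h2.sum_le_tsum s (fun _ _ => by positivity)
  have h4 := u1_norm hc w hw
  have h5 : ‖u1 w‖ ^ 2 ≤ (1 / |w.im|) ^ 2 := by gcongr
  linarith

/-- the shifted energy -/
noncomputable def wz (z : ℂ) (k : ℝ) : ℂ := z - 2 + 2 * (Real.cos k : ℂ)

theorem wz_im (z : ℂ) (k : ℝ) : (wz z k).im = z.im := by
  unfold wz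
  simp

theorem wz_re (z : ℂ) (k : ℝ) : (wz z k).re = z.re - 2 + 2 * Real.cos k := by
  unfold wz
  simp [Complex.cos_ofReal_re]

theorem wz_cont (z : ℂ) : Continuous (wz z) := by
  unfold wz
  fun_prop

theorem u1_cont (hc : S_conv) (hg : S_green) (z : ℂ) (hz : 0 < z.im) (n : ℤ) :
    Continuous fun k => u1 (wz z k) (n1 n) := by
  have h6 := (hg (ZM 1) (TL 1) (TL_rs hc 1)).2.2.2.2.2.2.1
  rw [continuous_iff_continuousAt]
  intro k0
  rw [ContinuousAt, tendsto_iff_norm_sub_tendsto_zero]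
  have h7 : Tendsto (fun k => ‖wz z k - wz z k0‖ / (z.im * z.im)) (𝓝 k0) (𝓝 0) := by
    have h8 := ((((wz_cont z).sub continuous_const).norm).div_const (z.im * z.im)).tendsto
      (x := k0) (f := fun k => ‖wz z k - wz z k0‖ / (z.im * z.im))
    simpa using h8
  refine squeeze_zero (fun _ => norm_nonneg _) (fun k => ?_) h7
  have h9 := h6 (wz z k) (wz z k0) (n1 n) 1 (by rw [wz_im]; exact hz) (by rw [wz_im]; exact hz)
  rw [wz_im, wz_im] at h9
  exact h9

/-! ### Fourier coefficients -/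

theorem hpi : (-Real.pi) < Real.pi := by linarith [Real.pi_pos]

/-- the kernel -/
noncomputable def ek (m : ℤ) (k : ℝ) : ℂ := Complex.exp (-(m * k * Complex.I))

theorem ek_cont (m : ℤ) : Continuous (ek m) := by
  unfold ek
  fun_prop

theorem fco (f : ℝ → ℂ) (m : ℤ) : fourierCoeffOn hpi f m =
    (1 / (2 * Real.pi) : ℝ) * ∫ k in (-Real.pi)..Real.pi, ek m k * f k := by
  rw [fourierCoeffOn_eq_integral]
  have h1 : Real.pi - -Real.pi = 2 * Real.pi := by ring
  rw [Complex.real_smul]
  congr 1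
  · rw [h1]
  · refine intervalIntegral.integral_congr fun k _ => ?_
    show fourier (-m) ((k : ℝ) : AddCircle (Real.pi - -Real.pi)) • f k = ek m k * f k
    rw [fourier_coe_apply, smul_eq_mul]
    congr 1
    unfold ek
    congr 1
    have h2 : (Real.pi : ℂ) ≠ 0 := by exact_mod_cast Real.pi_ne_zero
    rw [h1]
    push_cast
    field_simp

theorem ek_shift (m : ℤ) (k : ℝ) :
    ek (m + 1) k + ek (m - 1) k = ek m k * (2 * (Real.cos k : ℂ)) := by
  unfold ek
  rw [Complex.ofReal_cos, Complex.two_cos, mul_add, ← Complex.exp_add, ← Complex.exp_add, add_comm]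
  push_cast
  congr 2
  · ring
  · ring

theorem ek_int (m : ℤ) : ∫ k in (-Real.pi)..Real.pi, ek m k =
    if m = 0 then ((2 * Real.pi : ℝ) : ℂ) else 0 := by
  by_cases hm : m = 0
  · subst hm
    rw [if_pos rfl]
    unfold ek
    simp
    ring
  · rw [if_neg hm]
    have hm' : (m : ℂ) ≠ 0 := by exact_mod_cast hm
    have h1 : (-(m * Complex.I) : ℂ) ≠ 0 := by
      simp [hm', Complex.I_ne_zero]
    have h2 := integral_exp_mul_complex (a := -Real.pi) (b := Real.pi) h1
    have h3 : ∫ k in (-Real.pi)..Real.pi, ek m k =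
        ∫ x in (-Real.pi)..Real.pi, Complex.exp (-(m * Complex.I) * x) := by
      refine intervalIntegral.integral_congr fun k _ => ?_
      show Complex.exp _ = Complex.exp _
      congr 1
      ring
    rw [h3, h2]
    have h4 : Complex.exp (-(m * Complex.I) * (Real.pi : ℝ)) =
        Complex.exp (-(m * Complex.I) * ((-Real.pi : ℝ) : ℂ)) := by
      rw [Complex.exp_eq_exp_iff_exists_int]
      refine ⟨-m, ?_⟩
      push_cast
      ring
    rw [h4, sub_self, zero_div]

/-- the candidate for the resolvent in dimension two -/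
noncomputable def cn (z : ℂ) (n m : ℤ) : ℂ := fourierCoeffOn hpi (fun k => u1 (wz z k) (n1 n)) m

theorem cn_eq (z : ℂ) (n m : ℤ) : cn z n m = (1 / (2 * Real.pi) : ℝ) *
    ∫ k in (-Real.pi)..Real.pi, ek m k * u1 (wz z k) (n1 n) := fco _ m

theorem cn_rec (hc : S_conv) (hg : S_green) (z : ℂ) (hz : 0 < z.im) (n m : ℤ) :
    4 * cn z n m - ((cn z (n + 1) m + cn z (n - 1) m) + (cn z n (m + 1) + cn z n (m - 1))) -
      z * cn z n m = if n = 0 ∧ m = 0 then 1 else 0 := by
  have hi : ∀ n m : ℤ, IntervalIntegrable (fun k => ek m k * u1 (wz z k) (n1 n)) volume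
      (-Real.pi) Real.pi := fun n m =>
    ((ek_cont m).mul (u1_cont hc hg z hz n)).intervalIntegrable _ _
  have h1 : 4 * cn z n m - ((cn z (n + 1) m + cn z (n - 1) m) + (cn z n (m + 1) +
      cn z n (m - 1))) - z * cn z n m = (1 / (2 * Real.pi) : ℝ) *
      ∫ k in (-Real.pi)..Real.pi, ek m k * (if n = 0 then 1 else 0) := by
    simp only [cn_eq]
    have h2 : ∫ k in (-Real.pi)..Real.pi, ek m k * (if n = 0 then (1 : ℂ) else 0) =
        4 * (∫ k in (-Real.pi)..Real.pi, ek m k * u1 (wz z k) (n1 n)) -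
        (((∫ k in (-Real.pi)..Real.pi, ek m k * u1 (wz z k) (n1 (n + 1))) +
          ∫ k in (-Real.pi)..Real.pi, ek m k * u1 (wz z k) (n1 (n - 1))) +
        ((∫ k in (-Real.pi)..Real.pi, ek (m + 1) k * u1 (wz z k) (n1 n)) +
          ∫ k in (-Real.pi)..Real.pi, ek (m - 1) k * u1 (wz z k) (n1 n))) -
        z * ∫ k in (-Real.pi)..Real.pi, ek m k * u1 (wz z k) (n1 n) := by
      rw [← intervalIntegral.integral_const_mul, ← intervalIntegral.integral_const_mul,
        ← intervalIntegral.integral_add (hi _ _) (hi _ _),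
        ← intervalIntegral.integral_add (hi _ _) (hi _ _),
        ← intervalIntegral.integral_add ((hi _ _).add (hi _ _)) ((hi _ _).add (hi _ _)),
        ← intervalIntegral.integral_sub ((hi _ _).const_mul _)
          (((hi _ _).add (hi _ _)).add ((hi _ _).add (hi _ _))),
        ← intervalIntegral.integral_sub (((hi _ _).const_mul _).sub
          (((hi _ _).add (hi _ _)).add ((hi _ _).add (hi _ _)))) ((hi _ _).const_mul _)]
      refine intervalIntegral.integral_congr fun k _ => ?_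
      have h3 := eq1 hc (wz z k) (by rw [wz_im]; exact hz.ne') n
      have h4 := ek_shift m k
      have h5 : ek (m + 1) k * u1 (wz z k) (n1 n) + ek (m - 1) k * u1 (wz z k) (n1 n) =
        ek m k * (2 * (Real.cos k : ℂ)) * u1 (wz z k) (n1 n) := by rw [← add_mul, h4]
      beta_reduce
      rw [h5, ← h3]
      unfold wz
      ring
    rw [h2]
    ring
  rw [h1]
  by_cases hn : n = 0
  · simp only [hn, if_true, mul_one, true_and]
    rw [ek_int]
    by_cases hm : m = 0
    · rw [if_pos hm, if_pos hm]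
      rw [← Complex.ofReal_mul]
      have : (1 / (2 * Real.pi)) * (2 * Real.pi) = 1 := by
        have := Real.pi_ne_zero
        field_simp
      rw [this]
      simp
    · rw [if_neg hm, if_neg hm, mul_zero]
  · simp [hn]

theorem cn_row (hc : S_conv) (hg : S_green) (z : ℂ) (hz : 0 < z.im) (n : ℤ) :
    HasSum (fun m => ‖cn z n m‖ ^ 2)
      ((2 * Real.pi)⁻¹ * ∫ k in (-Real.pi)..Real.pi, ‖u1 (wz z k) (n1 n)‖ ^ 2) := by
  have h1 : MemLp (fun k => u1 (wz z k) (n1 n)) 2
      (volume.restrict (Set.Ioc (-Real.pi) Real.pi)) := by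
    refine MemLp.of_bound (u1_cont hc hg z hz n).aestronglyMeasurable (1 / |z.im|)
      (Eventually.of_forall fun k => ?_)
    have h4 := u1_norm hc (wz z k) (by rw [wz_im]; exact hz.ne')
    rw [wz_im] at h4
    exact (ll_coord _ _).trans h4
  have h2 := hasSum_sq_fourierCoeffOn hpi h1
  have h3 : Real.pi - -Real.pi = 2 * Real.pi := by ring
  rw [h3, smul_eq_mul] at h2
  exact h2

theorem cn_sum (hc : S_conv) (hg : S_green) (z : ℂ) (hz : 0 < z.im) :
    Summable fun p : ℤ × ℤ => ‖cn z p.1 p.2‖ ^ 2 := by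
  rw [summable_prod_of_nonneg (fun p => by positivity)]
  refine ⟨fun n => (cn_row hc hg z hz n).summable, ?_⟩
  have h1 : ∀ n, ∑' m, ‖cn z n m‖ ^ 2 =
      (2 * Real.pi)⁻¹ * ∫ k in (-Real.pi)..Real.pi, ‖u1 (wz z k) (n1 n)‖ ^ 2 := fun n =>
    (cn_row hc hg z hz n).tsum_eq
  have h2 : (fun n => ∑' m, ‖cn z n m‖ ^ 2) = fun n =>
      (2 * Real.pi)⁻¹ * ∫ k in (-Real.pi)..Real.pi, ‖u1 (wz z k) (n1 n)‖ ^ 2 := funext h1
  show Summable (fun n => ∑' m, ‖cn z n m‖ ^ 2)
  rw [h2]
  have hcont : ∀ n, Continuous fun k => ‖u1 (wz z k) (n1 n)‖ ^ 2 := fun n =>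
    ((u1_cont hc hg z hz n).norm).pow 2
  have hp := Real.pi_pos
  refine summable_of_sum_le (c := (1 / |z.im|) ^ 2) (fun n => ?_) (fun s => ?_)
  · refine mul_nonneg (by positivity) ?_
    exact intervalIntegral.integral_nonneg hpi.le fun k _ => by positivity
  · rw [← Finset.mul_sum, ← intervalIntegral.integral_finsetSum
      (fun n _ => (hcont n).intervalIntegrable _ _)]
    have h3 : ∫ k in (-Real.pi)..Real.pi, ∑ n ∈ s, ‖u1 (wz z k) (n1 n)‖ ^ 2 ≤
        ∫ k in (-Real.pi)..Real.pi, (1 / |z.im|) ^ 2 := by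
      refine intervalIntegral.integral_mono_on hpi.le ?_ ?_ fun k _ => ?_
      · exact (continuous_finsetSum s fun n _ => hcont n).intervalIntegrable _ _
      · exact intervalIntegrable_const
      · have h4 := u1_part hc (wz z k) (by rw [wz_im]; exact hz.ne') s
        rwa [wz_im] at h4
    rw [intervalIntegral.integral_const, smul_eq_mul] at h3
    calc (2 * Real.pi)⁻¹ * ∫ k in (-Real.pi)..Real.pi, ∑ n ∈ s, ‖u1 (wz z k) (n1 n)‖ ^ 2
        ≤ (2 * Real.pi)⁻¹ * ((Real.pi - -Real.pi) * (1 / |z.im|) ^ 2) := by gcongr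
      _ = _ := by
        have := Real.pi_ne_zero
        field_simp
        ring

/-- the resolvent in dimension two -/
noncomputable def ph (z : ℂ) (x : ZM 2) : ℂ :=
  cn z (Multiplicative.toAdd x 0) (Multiplicative.toAdd x 1)

theorem ph_sum (hc : S_conv) (hg : S_green) (z : ℂ) (hz : 0 < z.im) :
    Summable fun x : ZM 2 => ‖ph z x‖ ^ 2 := by
  have h1 := (cn_sum hc hg z hz).comp_injective (i := fun x : ZM 2 =>
    ((Multiplicative.toAdd x 0, Multiplicative.toAdd x 1) : ℤ × ℤ)) (by
    intro x y h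
    apply Multiplicative.toAdd.injective
    funext i
    fin_cases i
    · exact congrArg Prod.fst h
    · exact congrArg Prod.snd h)
  exact h1

/-- **the formula for the Green function in dimension two** -/
theorem gZ2_eq (hc : S_conv) (hg : S_green) (z : ℂ) (hz : 0 < z.im) :
    gZ 2 z = (1 / (2 * Real.pi) : ℝ) * ∫ k in (-Real.pi)..Real.pi, gZ 1 (wz z k) := by
  have h1 : TL 2 (lmk (ph z) (ph_sum hc hg z hz)) - z • lmk (ph z) (ph_sum hc hg z hz) =
      dv 1 := by
    apply ll_ext
    intro x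
    rw [sub_coord, smul_coord, TL_apply hc 2]
    simp only [lmk_apply]
    rw [Fin.sum_univ_two]
    have a1 : ph z (x * ep 2 0) = cn z (Multiplicative.toAdd x 0 + 1)
        (Multiplicative.toAdd x 1) := by
      unfold ph
      congr 1
      show Multiplicative.toAdd x 1 + (Pi.single 0 1 : Fin 2 → ℤ) 1 = _
      simp
    have a2 : ph z (x * em 2 0) = cn z (Multiplicative.toAdd x 0 - 1)
        (Multiplicative.toAdd x 1) := by
      unfold ph
      congr 1
      show Multiplicative.toAdd x 1 + (Pi.single 0 (-1) : Fin 2 → ℤ) 1 = _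
      simp
    have a3 : ph z (x * ep 2 1) = cn z (Multiplicative.toAdd x 0)
        (Multiplicative.toAdd x 1 + 1) := by
      unfold ph
      congr 1
      show Multiplicative.toAdd x 0 + (Pi.single 1 1 : Fin 2 → ℤ) 0 = _
      simp
    have a4 : ph z (x * em 2 1) = cn z (Multiplicative.toAdd x 0)
        (Multiplicative.toAdd x 1 - 1) := by
      unfold ph
      congr 1
      show Multiplicative.toAdd x 0 + (Pi.single 1 (-1) : Fin 2 → ℤ) 0 = _
      simp
    rw [a1, a2, a3, a4]
    have h2 := cn_rec hc hg z hz (Multiplicative.toAdd x 0) (Multiplicative.toAdd x 1)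
    have h3 : ph z x = cn z (Multiplicative.toAdd x 0) (Multiplicative.toAdd x 1) := rfl
    rw [h3]
    have h4 : (2 * ((2 : ℕ) : ℂ)) = 4 := by norm_num
    rw [h4, h2]
    by_cases hx : x = 1
    · subst hx
      rw [dv_self, if_pos ⟨rfl, rfl⟩]
    · rw [dv_ne hx, if_neg]
      rintro ⟨h5, h6⟩
      apply hx
      apply Multiplicative.toAdd.injective
      funext i
      fin_cases i
      · exact h5
      · exact h6
  have h2 := rz_uniq (TL 2) (TL_rs hc 2).sa z hz.ne' _ _ h1
  have h3 : gZ 2 z = Rz (TL 2) z (dv 1) 1 := rfl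
  rw [h3, ← h2, lmk_apply]
  show cn z 0 0 = _
  rw [cn_eq]
  congr 1
  refine intervalIntegral.integral_congr fun k _ => ?_
  show ek 0 k * u1 (wz z k) (n1 0) = gZ 1 (wz z k)
  rw [gZ1_eq]
  unfold ek
  simp

end Pool.Agent.H548.Z987
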