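import Pool.Agent.H548.Z987.Lat

/-!
# The Green function in dimension one
-/

set_option autoImplicit false
set_option linter.unusedSectionVars false

open scoped BigOperators InnerProductSpace Topology
open Filter MeasureTheory

namespace Pool.Agent.H548.Z987

open Pool.Agent.Y662.TR (LL Cf Mw dv hu ll_ext lmk lmk_apply sub_coord smul_coord add_coord dv_self
  dv_ne dv_apply ll_sum ll_summable norm_dv ll_coord)
open Pool.Agent.TH369.AN (Rz rz_eq rz_uniq rz_norm)
open Pool.Agent.H987.Z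

theorem root_ex (w : ℂ) (hw : w.im ≠ 0) : ∃ r : ℂ, r ≠ 0 ∧ ‖r‖ < 1 ∧ r + r⁻¹ = 2 - w := by
  obtain ⟨s, hs⟩ := IsAlgClosed.exists_pow_nat_eq ((2 - w) ^ 2 - 4) (n := 2) (by norm_num)
  obtain ⟨r, hr⟩ : ∃ r, r = ((2 - w) + s) / 2 := ⟨_, rfl⟩
  obtain ⟨q, hq⟩ : ∃ q, q = ((2 - w) - s) / 2 := ⟨_, rfl⟩
  have h1 : r * q = 1 := by
    rw [hr, hq]
    have : ((2 - w) + s) / 2 * (((2 - w) - s) / 2) = ((2 - w) ^ 2 - s ^ 2) / 4 := by ring
    rw [this, hs]
    ring
  have h2 : r + q = 2 - w := by rw [hr, hq]; ring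
  have hr0 : r ≠ 0 := fun h => by rw [h, zero_mul] at h1; exact zero_ne_one h1
  have hq0 : q ≠ 0 := fun h => by rw [h, mul_zero] at h1; exact zero_ne_one h1
  have h3 : q = r⁻¹ := eq_inv_of_mul_eq_one_right h1
  have h4 : r = q⁻¹ := eq_inv_of_mul_eq_one_left h1
  have h5 : ‖r‖ * ‖q‖ = 1 := by rw [← norm_mul, h1, norm_one]
  rcases lt_trichotomy ‖r‖ 1 with h | h | h
  · exact ⟨r, hr0, h, by rw [← h3, h2]⟩
  · exfalso
    apply hw
    have h6 : r⁻¹ = (starRingEnd ℂ) r := by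
      rw [Complex.inv_def, Complex.normSq_eq_norm_sq, h]
      simp
    have h7 : (r + q).im = 0 := by
      rw [h3, h6, Complex.add_im, Complex.conj_im]
      ring
    rw [h2] at h7
    simpa using h7
  · refine ⟨q, hq0, ?_, by rw [← h4, ← h2]; ring⟩
    by_contra h6
    push Not at h6
    have h7 : 1 * 1 < ‖r‖ * ‖q‖ := by
      calc (1 : ℝ) * 1 < ‖r‖ * 1 := by linarith
        _ ≤ ‖r‖ * ‖q‖ := by gcongr
    linarith

theorem geo_sum (r : ℂ) (hr : ‖r‖ < 1) (A : ℂ) :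
    Summable fun n : ℤ => ‖A * r ^ n.natAbs‖ ^ 2 := by
  have h0 : Summable fun n : ℕ => ‖A * r ^ n‖ ^ 2 := by
    have h1 : Summable fun n : ℕ => ‖A‖ ^ 2 * (‖r‖ ^ 2) ^ n := by
      refine (summable_geometric_of_lt_one (by positivity) ?_).mul_left _
      have := norm_nonneg r
      nlinarith
    refine h1.congr fun n => ?_
    rw [norm_mul, norm_pow]
    ring
  rw [summable_int_iff_summable_nat_and_neg]
  constructor
  · simpa using h0
  · simpa using h0

/-- **the explicit form of the Green function in dimension one** -/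
theorem g1_ex (hc : S_conv) (w : ℂ) (hw : w.im ≠ 0) : ∃ r : ℂ, r ≠ 0 ∧ ‖r‖ < 1 ∧
    r + r⁻¹ = 2 - w ∧ gZ 1 w = (r⁻¹ - r)⁻¹ := by
  obtain ⟨r, hr0, hr1, hr⟩ := root_ex w hw
  refine ⟨r, hr0, hr1, hr, ?_⟩
  have hne : r⁻¹ - r ≠ 0 := by
    intro h
    have h1 : r * r = 1 := by
      have h2 : r⁻¹ = r := sub_eq_zero.1 h
      nth_rewrite 1 [← h2]
      exact inv_mul_cancel₀ hr0
    have h3 : ‖r‖ * ‖r‖ = 1 := by rw [← norm_mul, h1, norm_one]
    nlinarith [norm_nonneg r]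
  obtain ⟨A, hA⟩ : ∃ A, A = (r⁻¹ - r)⁻¹ := ⟨_, rfl⟩
  have hA1 : A * (r⁻¹ - r) = 1 := by rw [hA]; exact inv_mul_cancel₀ hne
  have hsum : Summable fun x : ZM 1 => ‖A * r ^ (Multiplicative.toAdd x 0).natAbs‖ ^ 2 :=
    (geo_sum r hr1 A).comp_injective (i := fun x : ZM 1 => Multiplicative.toAdd x 0) (by
      intro x y h
      apply Multiplicative.toAdd.injective
      funext i
      rw [Subsingleton.elim i 0]
      exact h)
  have h1 : TL 1 (lmk _ hsum) - w • lmk _ hsum = dv 1 := by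
    apply ll_ext
    intro x
    obtain ⟨n, rfl⟩ : ∃ n, n1 n = x := ⟨Multiplicative.toAdd x 0, by
      apply Multiplicative.toAdd.injective
      funext i
      rw [Subsingleton.elim i 0]
      rfl⟩
    rw [sub_coord, smul_coord, TL_apply hc 1]
    simp only [Finset.univ_unique, Fin.default_eq_zero, Finset.sum_singleton, Nat.cast_one,
      mul_one, lmk_apply]
    rw [n1_ep, n1_em]
    show 2 * (A * r ^ n.natAbs) - (A * r ^ (n + 1).natAbs + A * r ^ (n - 1).natAbs) -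
      w * (A * r ^ n.natAbs) = _
    have hw' : w = 2 - r - r⁻¹ := by rw [sub_sub, hr]; ring
    have hrr : r * r⁻¹ = 1 := mul_inv_cancel₀ hr0
    rcases lt_trichotomy n 0 with hn | hn | hn
    · obtain ⟨m, hm⟩ : ∃ m : ℕ, n = -((m : ℤ) + 1) := ⟨(-n - 1).toNat, by omega⟩
      have e1 : n.natAbs = m + 1 := by omega
      have e2 : (n + 1).natAbs = m := by omega
      have e3 : (n - 1).natAbs = m + 2 := by omega
      rw [e1, e2, e3, dv_ne, hw']
      · have : 2 * (A * r ^ (m + 1)) - (A * r ^ m + A * r ^ (m + 2)) -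
            (2 - r - r⁻¹) * (A * r ^ (m + 1)) = A * r ^ m * (r * r⁻¹ - 1) := by ring
        rw [this, hrr]
        ring
      · intro h
        have := n1_inj (h.trans n1_zero.symm)
        omega
    · subst hn
      rw [n1_zero, dv_self, hw']
      simp only [Int.natAbs_zero, zero_add, zero_sub, Int.natAbs_neg, Int.natAbs_one, pow_zero,
        pow_one, mul_one]
      rw [← hA1]
      ring
    · obtain ⟨m, hm⟩ : ∃ m : ℕ, n = (m : ℤ) + 1 := ⟨(n - 1).toNat, by omega⟩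
      have e1 : n.natAbs = m + 1 := by omega
      have e2 : (n + 1).natAbs = m + 2 := by omega
      have e3 : (n - 1).natAbs = m := by omega
      rw [e1, e2, e3, dv_ne, hw']
      · have : 2 * (A * r ^ (m + 1)) - (A * r ^ (m + 2) + A * r ^ m) -
            (2 - r - r⁻¹) * (A * r ^ (m + 1)) = A * r ^ m * (r * r⁻¹ - 1) := by ring
        rw [this, hrr]
        ring
      · intro h
        have := n1_inj (h.trans n1_zero.symm)
        omega
  have h2 := rz_uniq (TL 1) (TL_rs hc 1).sa w hw _ _ h1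
  rw [gZ1_eq]
  unfold u1
  rw [← h2, lmk_apply]
  show A * r ^ (0 : ℤ).natAbs = _
  rw [Int.natAbs_zero, pow_zero, mul_one, hA]

/-- the square of the Green function -/
theorem g1_sq (hc : S_conv) (w : ℂ) (hw : w.im ≠ 0) : gZ 1 w ^ 2 * (w * (w - 4)) = 1 := by
  obtain ⟨r, hr0, hr1, hr, h⟩ := g1_ex hc w hw
  have hne : r⁻¹ - r ≠ 0 := by
    intro h
    have h1 : r * r = 1 := by
      have h2 : r⁻¹ = r := sub_eq_zero.1 h
      nth_rewrite 1 [← h2]
      exact inv_mul_cancel₀ hr0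
    have h3 : ‖r‖ * ‖r‖ = 1 := by rw [← norm_mul, h1, norm_one]
    nlinarith [norm_nonneg r]
  have hw' : w = 2 - r - r⁻¹ := by rw [sub_sub, hr]; ring
  have hrr : r * r⁻¹ = 1 := mul_inv_cancel₀ hr0
  have h5 : w * (w - 4) = (r⁻¹ - r) ^ 2 := by
    rw [hw']
    linear_combination (-4 : ℂ) * hrr + 8 * hrr
  rw [h, h5, inv_pow, inv_mul_cancel₀ (pow_ne_zero 2 hne)]

/-- the imaginary part -/
theorem g1_im (hc : S_conv) (hg : S_green) (w : ℂ) (hw : 0 < w.im) : 0 < (gZ 1 w).im := by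
  have h := (hg (ZM 1) (TL 1) (TL_rs hc 1)).2.2.2.1 w 1 ‖TL 1‖ hw le_rfl
  have h2 : 0 < ‖w‖ := hw.trans_le (Complex.im_le_norm w)
  have h3 : 0 < w.im / (‖TL 1‖ + ‖w‖) ^ 2 := by
    have := norm_nonneg (TL 1)
    positivity
  exact h3.trans_le h

end Pool.Agent.H548.Z987
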