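import Pool.Agent.H548.Z987.One

/-!
# The Green function in dimension two away from the band centre
-/

set_option autoImplicit false
set_option linter.unusedSectionVars false

open scoped BigOperators InnerProductSpace Topology
open Filter MeasureTheory

namespace Pool.Agent.H548.Z987

open Pool.Agent.Y662.TR (LL Cf Mw dv hu)
open Pool.Agent.TH369.AN (Rz rz_eq rz_uniq rz_norm)
open Pool.Agent.H987.Z

/-! ### Algebra -/

theorem re_im_of {p q X Y : ℝ} (h : (⟨p, q⟩ : ℂ) ^ 2 * ⟨X, Y⟩ = 1) :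
    (p ^ 2 - q ^ 2) * X - 2 * p * q * Y = 1 ∧ (p ^ 2 - q ^ 2) * Y + 2 * p * q * X = 0 := by
  have h1 := congrArg Complex.re h
  have h2 := congrArg Complex.im h
  rw [pow_two] at h1 h2
  simp only [Complex.mul_re, Complex.mul_im, Complex.one_re, Complex.one_im] at h1 h2
  constructor
  · rw [← h1]; ring
  · rw [← h2]; ring

theorem sector (hc : S_conv) (hg : S_green) (w : ℂ) (hw : 0 < w.im) (hw4 : w.re < 4) :
    0 < (gZ 1 w).re + (gZ 1 w).im := by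
  have h1 := g1_sq hc w hw.ne'
  have h2 := g1_im hc hg w hw
  obtain ⟨p, hp⟩ : ∃ p, p = (gZ 1 w).re := ⟨_, rfl⟩
  obtain ⟨q, hq⟩ : ∃ q, q = (gZ 1 w).im := ⟨_, rfl⟩
  obtain ⟨x, hx⟩ : ∃ x, x = w.re := ⟨_, rfl⟩
  obtain ⟨y, hy⟩ : ∃ y, y = w.im := ⟨_, rfl⟩
  have e1 : gZ 1 w = ⟨p, q⟩ := Complex.ext hp.symm hq.symm
  have e2 : w = ⟨x, y⟩ := Complex.ext hx.symm hy.symm
  have e3 : w * (w - 4) = ⟨x ^ 2 - y ^ 2 - 4 * x, 2 * x * y - 4 * y⟩ := by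
    rw [e2]
    apply Complex.ext
    · simp
      ring
    · simp
      ring
  rw [e1, e3] at h1
  obtain ⟨h3, h4⟩ := re_im_of h1
  rw [← hp, ← hq]
  rw [← hq] at h2
  rw [← hx] at hw4
  rw [← hy] at hw
  by_contra hneg
  push Not at hneg
  have hp0 : p ≤ -q := by linarith
  obtain ⟨P, hP⟩ : ∃ P, P = p ^ 2 - q ^ 2 := ⟨_, rfl⟩
  obtain ⟨Q, hQ⟩ : ∃ Q, Q = 2 * p * q := ⟨_, rfl⟩
  rw [← hP, ← hQ] at h3 h4
  have hP0 : 0 ≤ P := by rw [hP]; nlinarith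
  have hQ0 : Q < 0 := by rw [hQ]; nlinarith
  obtain ⟨X, hX⟩ : ∃ X, X = x ^ 2 - y ^ 2 - 4 * x := ⟨_, rfl⟩
  obtain ⟨Y, hY⟩ : ∃ Y, Y = 2 * x * y - 4 * y := ⟨_, rfl⟩
  rw [← hX, ← hY] at h3 h4
  have k1 : (P ^ 2 + Q ^ 2) * X = P := by linear_combination P * h3 + Q * h4
  have k2 : (P ^ 2 + Q ^ 2) * Y = -Q := by linear_combination P * h4 - Q * h3
  have k3 : 0 < P ^ 2 + Q ^ 2 := by nlinarith
  have k4 : 0 ≤ X := by
    by_contra h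
    push Not at h
    nlinarith
  have k5 : 0 < Y := by
    by_contra h
    push Not at h
    nlinarith
  have k6 : 2 < x := by
    rw [hY] at k5
    by_contra h
    push Not at h
    nlinarith
  rw [hX] at k4
  nlinarith

theorem sec_norm {a : ℂ} (h1 : 0 < a.im) (h2 : 0 < a.re + a.im) :
    ‖a‖ ≤ 3 / 2 * (a.re + 2 * a.im) := by
  have h3 : 0 ≤ 3 / 2 * (a.re + 2 * a.im) := by nlinarith
  apply le_of_sq_le_sq _ h3 |> fun h => h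
  rw [← Complex.normSq_eq_norm_sq, Complex.normSq_apply]
  nlinarith [mul_pos h1 h2]

theorem sec_add {a b : ℂ} (h1 : 0 < a.im) (h2 : 0 < a.re + a.im) (h3 : 0 < b.im)
    (h4 : 0 < b.re + b.im) : ‖a‖ + ‖b‖ ≤ 5 * ‖a + b‖ := by
  have k1 := sec_norm h1 h2
  have k2 := sec_norm h3 h4
  have k3 := Complex.re_le_norm (a + b)
  have k4 := Complex.im_le_norm (a + b)
  have k5 := norm_nonneg (a + b)
  rw [Complex.add_re] at k3
  rw [Complex.add_im] at k4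
  linarith

/-- comparison of two square roots in the sector -/
theorem sec_diff {a b A B : ℂ} (ha : a ^ 2 * A = 1) (hb : b ^ 2 * B = 1)
    (h1 : 0 < a.im) (h2 : 0 < a.re + a.im) (h3 : 0 < b.im) (h4 : 0 < b.re + b.im) :
    ‖a - b‖ ^ 4 ≤ 20 * ‖B - A‖ * max ‖a‖ ‖b‖ ^ 6 := by
  have k1 := sec_add h1 h2 h3 h4
  have k2 : (a - b) * (a + b) = (B - A) * (a ^ 2 * b ^ 2) := by
    linear_combination b ^ 2 * ha - a ^ 2 * hb
  have k3 : ‖a - b‖ * ‖a + b‖ = ‖B - A‖ * (‖a‖ ^ 2 * ‖b‖ ^ 2) := by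
    rw [← norm_mul, k2, norm_mul, norm_mul, norm_pow, norm_pow]
  obtain ⟨m, hm⟩ : ∃ m, m = max ‖a‖ ‖b‖ := ⟨_, rfl⟩
  have k4 : ‖a‖ ≤ m := hm ▸ le_max_left _ _
  have k5 : ‖b‖ ≤ m := hm ▸ le_max_right _ _
  have k6 := norm_sub_le a b
  have n1 := norm_nonneg a
  have n2 := norm_nonneg b
  have n3 := norm_nonneg (a - b)
  have n4 := norm_nonneg (B - A)
  rw [← hm]
  have k7 : ‖a - b‖ * (‖a‖ + ‖b‖) ≤ 5 * (‖B - A‖ * (‖a‖ ^ 2 * ‖b‖ ^ 2)) := by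
    rw [← k3]
    nlinarith
  calc ‖a - b‖ ^ 4 = ‖a - b‖ * ‖a - b‖ ^ 3 := by ring
    _ ≤ ‖a - b‖ * (‖a‖ + ‖b‖) ^ 3 := by gcongr
    _ = (‖a - b‖ * (‖a‖ + ‖b‖)) * (‖a‖ + ‖b‖) ^ 2 := by ring
    _ ≤ (5 * (‖B - A‖ * (‖a‖ ^ 2 * ‖b‖ ^ 2))) * (m + m) ^ 2 := by gcongr
    _ ≤ (5 * (‖B - A‖ * (m ^ 2 * m ^ 2))) * (m + m) ^ 2 := by gcongr
    _ = _ := by ring

/-- the same bound in the form which is integrated -/
theorem sec_diff' {a b A B : ℂ} (ha : a ^ 2 * A = 1) (hb : b ^ 2 * B = 1)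
    (h1 : 0 < a.im) (h2 : 0 < a.re + a.im) (h3 : 0 < b.im) (h4 : 0 < b.re + b.im) :
    ‖a - b‖ ≤ (20 * ‖B - A‖) ^ (1 / 4 : ℝ) * (‖a‖ ^ (3 / 2 : ℝ) + ‖b‖ ^ (3 / 2 : ℝ)) := by
  have h := sec_diff ha hb h1 h2 h3 h4
  have n1 := norm_nonneg a
  have n2 := norm_nonneg b
  have n3 := norm_nonneg (a - b)
  have n4 := norm_nonneg (B - A)
  obtain ⟨m, hm⟩ : ∃ m, m = max ‖a‖ ‖b‖ := ⟨_, rfl⟩
  have hm0 : 0 ≤ m := hm ▸ n1.trans (le_max_left _ _)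
  rw [← hm] at h
  have k1 : ‖a - b‖ = (‖a - b‖ ^ 4) ^ (1 / 4 : ℝ) := by
    rw [← Real.rpow_natCast, ← Real.rpow_mul n3]
    norm_num
  have k2 : (m ^ 6) ^ (1 / 4 : ℝ) = m ^ (3 / 2 : ℝ) := by
    rw [← Real.rpow_natCast, ← Real.rpow_mul hm0]
    norm_num
  have k3 : m ^ (3 / 2 : ℝ) ≤ ‖a‖ ^ (3 / 2 : ℝ) + ‖b‖ ^ (3 / 2 : ℝ) := by
    have m1 : 0 ≤ ‖a‖ ^ (3 / 2 : ℝ) := Real.rpow_nonneg n1 _
    have m2 : 0 ≤ ‖b‖ ^ (3 / 2 : ℝ) := Real.rpow_nonneg n2 _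
    rcases max_choice ‖a‖ ‖b‖ with h5 | h5
    · rw [hm, h5]; linarith
    · rw [hm, h5]; linarith
  calc ‖a - b‖ = (‖a - b‖ ^ 4) ^ (1 / 4 : ℝ) := k1
    _ ≤ (20 * ‖B - A‖ * m ^ 6) ^ (1 / 4 : ℝ) := by gcongr
    _ = (20 * ‖B - A‖) ^ (1 / 4 : ℝ) * m ^ (3 / 2 : ℝ) := by
      rw [Real.mul_rpow (by positivity) (by positivity), k2]
    _ ≤ _ := by gcongr

/-! ### Trigonometry -/

/-- the angle at which the energy is singular -/
noncomputable def t0 (E : ℝ) : ℝ := Real.arccos (1 - E / 2)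

theorem t0_mem (E : ℝ) : 0 ≤ t0 E ∧ t0 E ≤ Real.pi := ⟨Real.arccos_nonneg _, Real.arccos_le_pi _⟩

theorem t0_cos {E : ℝ} (h0 : 0 ≤ E) (h4 : E ≤ 4) : Real.cos (t0 E) = 1 - E / 2 :=
  Real.cos_arccos (by linarith) (by linarith)

theorem sin_half {κ E : ℝ} (hκ : 0 < κ) (h1 : κ ≤ E) (h2 : E ≤ 4 - κ) :
    κ / 4 ≤ Real.sin (t0 E / 2) ∧ κ / 4 ≤ Real.cos (t0 E / 2) := by
  obtain ⟨m1, m2⟩ := t0_mem E
  have hp := Real.pi_pos
  have hc := t0_cos (E := E) (by linarith) (by linarith)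
  have h3 : Real.cos (t0 E) = 2 * Real.cos (t0 E / 2) ^ 2 - 1 := by
    rw [← Real.cos_two_mul]
    congr 1
    ring
  have h4 := Real.sin_sq_add_cos_sq (t0 E / 2)
  have s0 : 0 ≤ Real.sin (t0 E / 2) := Real.sin_nonneg_of_nonneg_of_le_pi (by linarith)
    (by linarith)
  have c0 : 0 ≤ Real.cos (t0 E / 2) := Real.cos_nonneg_of_mem_Icc ⟨by linarith, by linarith⟩
  have s1 := Real.sin_le_one (t0 E / 2)
  have c1 := Real.cos_le_one (t0 E / 2)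
  constructor
  · nlinarith
  · nlinarith

theorem sin_mid {κ E θ : ℝ} (hκ : 0 < κ) (h1 : κ ≤ E) (h2 : E ≤ 4 - κ) (h3 : 0 ≤ θ)
    (h4 : θ ≤ Real.pi) : κ / 4 ≤ Real.sin ((θ + t0 E) / 2) := by
  obtain ⟨m1, m2⟩ := t0_mem E
  obtain ⟨k1, k2⟩ := sin_half hκ h1 h2
  have hp := Real.pi_pos
  rcases le_total ((θ + t0 E) / 2) (Real.pi / 2) with h | h
  · refine k1.trans ?_
    exact Real.sin_le_sin_of_le_of_le_pi_div_two (by linarith) h (by linarith)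
  · have h5 : Real.sin ((θ + t0 E) / 2) = Real.cos ((θ + t0 E) / 2 - Real.pi / 2) := by
      rw [Real.cos_sub_pi_div_two]
    rw [h5]
    refine k2.trans ?_
    exact Real.cos_le_cos_of_nonneg_of_le_pi (by linarith) (by linarith) (by linarith)

theorem abs_sin_ge {x : ℝ} (h : |x| ≤ Real.pi / 2) : 2 / Real.pi * |x| ≤ |Real.sin x| := by
  rcases le_total 0 x with hx | hx
  · rw [abs_of_nonneg hx] at h ⊢
    exact (Real.mul_le_sin hx h).trans (le_abs_self _)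
  · rw [abs_of_nonpos hx] at h ⊢
    have h1 := Real.mul_le_sin (x := -x) (by linarith) h
    rw [Real.sin_neg] at h1
    exact h1.trans (neg_le_abs _)

theorem psi_low {κ E θ : ℝ} (hκ : 0 < κ) (h1 : κ ≤ E) (h2 : E ≤ 4 - κ) (h3 : 0 ≤ θ)
    (h4 : θ ≤ Real.pi) : κ / Real.pi * |θ - t0 E| ≤ |E - 2 + 2 * Real.cos θ| := by
  obtain ⟨m1, m2⟩ := t0_mem E
  have hp := Real.pi_pos
  have hc := t0_cos (E := E) (by linarith) (by linarith)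
  have e1 : E - 2 + 2 * Real.cos θ = 2 * (Real.cos θ - Real.cos (t0 E)) := by
    rw [hc]; ring
  rw [e1, Real.cos_sub_cos, abs_mul, abs_mul, abs_mul]
  have k1 := sin_mid hκ h1 h2 h3 h4
  have k2 : κ / 4 ≤ |Real.sin ((θ + t0 E) / 2)| := k1.trans (le_abs_self _)
  have k3 : 2 / Real.pi * |(θ - t0 E) / 2| ≤ |Real.sin ((θ - t0 E) / 2)| := by
    apply abs_sin_ge
    rw [abs_le]
    constructor <;> linarith
  have k4 : |(θ - t0 E) / 2| = |θ - t0 E| / 2 := by rw [abs_div, abs_two]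
  rw [k4] at k3
  have n1 := abs_nonneg (θ - t0 E)
  have k5 : κ / 4 * (2 / Real.pi * (|θ - t0 E| / 2)) ≤
      |Real.sin ((θ + t0 E) / 2)| * |Real.sin ((θ - t0 E) / 2)| := by
    gcongr
  calc κ / Real.pi * |θ - t0 E| = 2 * (2 * (κ / 4 * (2 / Real.pi * (|θ - t0 E| / 2)))) := by
        field_simp
        ring
    _ ≤ 2 * (2 * (|Real.sin ((θ + t0 E) / 2)| * |Real.sin ((θ - t0 E) / 2)|)) := by gcongr
    _ = _ := by
      rw [abs_neg, abs_two]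
      ring

end Pool.Agent.H548.Z987
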